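import Pool.Agent.H13.LN.Targets

/-!
# Board lnt_modules (MP_559314_gt), module C2: realization of blocks
-/

set_option autoImplicit false

namespace Pool.Agent.H39.LNT

open Finset Pool.Agent.H59.LIN Pool.Agent.H13.LN

theorem nd_append {n : ℕ} (u v : Wd n) : nd (u ++ v) = nd u + nd v := by
  unfold nd
  exact List.countP_append

theorem ev_nil_of_nd (hEVA : T_EVA) {n : ℕ} (u : Wd n) (hu : nd u = 0) (k : ℕ)
    (p : Fin (n + 1)) : ev k u p = [] := by
  apply List.eq_nil_iff_forall_not_mem.2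
  intro m hm
  have := (hEVA.2.2 n k u p).2 m hm
  omega

theorem exists_perm {n : ℕ} (a b x y : Fin n) (hab : a ≠ b) (hxy : x ≠ y) :
    ∃ ρ : Equiv.Perm (Fin n), ρ a = x ∧ ρ b = y := by
  refine ⟨(Equiv.swap a x).trans (Equiv.swap (Equiv.swap a x b) y), ?_, ?_⟩
  · rw [Equiv.trans_apply, Equiv.swap_apply_left]
    refine Equiv.swap_apply_of_ne_of_ne ?_ hxy
    intro h
    apply hab
    apply (Equiv.swap a x).injective
    rw [Equiv.swap_apply_left]
    exact h
  · rw [Equiv.trans_apply, Equiv.swap_apply_left]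

theorem exists_X (hRUN : T_RUN) (hSUR : T_SUR) (hEVA : T_EVA) : ∀ (n : ℕ) (a b : Fin (n + 1)),
    a ≠ b → ∃ X : Wd n, nd X = 1 ∧ (∀ p, run X p = p) ∧
      ∀ (k : ℕ) (p : Fin (n + 1)), ev k X p = if p = a ∨ p = b then [k] else [] := by
  intro n a b hab
  rcases n with _ | n
  · exact absurd (Fin.ext (by omega)) hab
  obtain ⟨ρ, hρa, hρb⟩ := exists_perm a b (Fin.castSucc (0 : Fin (n + 1)))
    (Fin.succ (0 : Fin (n + 1))) hab (by
      intro h
      have := congrArg Fin.val h
      simp at this)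
  obtain ⟨W, hW0, hW⟩ := hSUR (n + 1) ρ
  obtain ⟨W', hW0', hW'⟩ := hSUR (n + 1) (ρ.trans (tr 0)).symm
  refine ⟨W ++ ((0, true) :: W'), ?_, ?_, ?_⟩
  · rw [nd_append, hW0]
    have : nd (((0 : Fin (n + 1)), true) :: W') = nd W' + 1 := by
      unfold nd
      rw [List.countP_cons]
      simp
    rw [this, hW0']
  · intro p
    rw [hRUN.1]
    show run W' (tr 0 (run W p)) = p
    rw [hW, hW', Equiv.symm_apply_eq]
    rfl
  · intro k p
    rw [hEVA.1, ev_nil_of_nd hEVA W hW0, List.nil_append, hW0, hW]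
    show (if true = true ∧ (ρ p = Fin.castSucc 0 ∨ ρ p = Fin.succ 0) then [k] else []) ++
      ev (if true = true then k + 1 else k) W' (tr 0 (ρ p)) = _
    rw [ev_nil_of_nd hEVA W' hW0', List.append_nil]
    refine if_congr ?_ rfl rfl
    constructor
    · rintro ⟨-, h | h⟩
      · left
        rw [← hρa] at h
        exact ρ.injective h
      · right
        rw [← hρb] at h
        exact ρ.injective h
    · rintro (h | h)
      · rw [h]
        exact ⟨rfl, Or.inl hρa⟩
      · rw [h]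
        exact ⟨rfl, Or.inr hρb⟩

theorem exists_F (hRUN : T_RUN) (hSUR : T_SUR) (hEVA : T_EVA) (n : ℕ) (a b : ℕ → Fin (n + 1)) :
    ∀ m : ℕ, (∀ k < m, a k ≠ b k) → ∃ f : Wd n, nd f = m ∧ (∀ p, run f p = p) ∧
      ∀ p : Fin (n + 1), ev 0 f p =
        (List.range m).filter (fun k => decide (p = a k ∨ p = b k)) := by
  intro m
  induction m with
  | zero =>
    intro _
    exact ⟨[], rfl, fun p => rfl, fun p => rfl⟩
  | succ m ih =>
    intro h
    obtain ⟨f, hf1, hf2, hf3⟩ := ih (fun k hk => h k (by omega))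
    obtain ⟨X, hX1, hX2, hX3⟩ := exists_X hRUN hSUR hEVA n (a m) (b m) (h m (by omega))
    refine ⟨f ++ X, ?_, ?_, ?_⟩
    · rw [nd_append, hf1, hX1]
    · intro p
      rw [hRUN.1, hf2, hX2]
    · intro p
      rw [hEVA.1, hf3, hf1, hf2, hX3, List.range_succ, List.filter_append, Nat.zero_add]
      by_cases hp : p = a m ∨ p = b m
      · rw [if_pos hp, List.filter_cons_of_pos (by simpa using hp), List.filter_nil]
      · rw [if_neg hp, List.filter_cons_of_neg (by simpa using hp), List.filter_nil]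

theorem ofFn_get' (s : ℕ) (B : List (List ℕ)) (h : B.length = s) :
    ∃ F : Fin s → List ℕ, B = List.ofFn F := by
  subst h
  exact ⟨B.get, (List.ofFn_get B).symm⟩

theorem exists_pair (n k : ℕ) (F : Fin (n + 1) → List ℕ) (hF : ∀ j, (F j).Pairwise (· < ·))
    (hc : (List.ofFn F).flatten.count k = 2) :
    ∃ a b : Fin (n + 1), a ≠ b ∧ ∀ j, k ∈ F j ↔ (j = a ∨ j = b) := by
  have h1 : (List.ofFn F).flatten.count k = ∑ j, (F j).count k := by
    rw [List.count_flatten, List.map_ofFn, List.sum_ofFn]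
    rfl
  have h2 : ∀ j, (F j).count k = if k ∈ F j then 1 else 0 := by
    intro j
    have hnd : (F j).Nodup := (hF j).imp (fun h => ne_of_lt h)
    exact List.Nodup.count hnd
  rw [h1, sum_congr rfl (fun j _ => h2 j), ← card_filter] at hc
  obtain ⟨a, b, hab, hs⟩ := card_eq_two.1 hc
  refine ⟨a, b, hab, fun j => ?_⟩
  have : j ∈ univ.filter (fun j => k ∈ F j) ↔ j ∈ ({a, b} : Finset (Fin (n + 1))) := by rw [hs]
  simpa using this

theorem c2 (hRUN : T_RUN) (hSUR : T_SUR) (hEVA : T_EVA) : T_C2 := by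
  intro d n L τ hL hlen
  obtain ⟨F, rfl⟩ := ofFn_get' (n + 1) L hlen
  have hinc : ∀ j, (F j).Pairwise (· < ·) := fun j =>
    hL.inc _ (List.mem_ofFn.2 ⟨j, rfl⟩)
  have hpair : ∀ k, ∃ a b : Fin (n + 1), k < d → a ≠ b ∧ ∀ j, k ∈ F j ↔ (j = a ∨ j = b) := by
    intro k
    by_cases hk : k < d
    · have hc := hL.cnt k
      rw [if_pos hk] at hc
      obtain ⟨a, b, h⟩ := exists_pair n k F hinc hc
      exact ⟨a, b, fun _ => h⟩
    · exact ⟨0, 0, fun h => absurd h hk⟩
  choose a b hab using hpair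
  obtain ⟨f, hf1, hf2, hf3⟩ := exists_F hRUN hSUR hEVA n (fun k => τ (a k)) (fun k => τ (b k)) d
    (fun k hk h => (hab k hk).1 (τ.injective h))
  obtain ⟨W, hW0, hW⟩ := hSUR n ((τ.symm.trans (finRotate (n + 1))).trans τ)
  have hmem : ∀ j k, k ∈ F j → k < d := by
    intro j k hk
    by_contra hcon
    have hc := hL.cnt k
    rw [if_neg hcon] at hc
    have : k ∈ (List.ofFn F).flatten := List.mem_flatten.2 ⟨F j, List.mem_ofFn.2 ⟨j, rfl⟩, hk⟩
    exact absurd (List.count_pos_iff.2 this) (by omega)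
  have hev : ∀ j, F j = ev 0 f (τ j) := by
    intro j
    rw [hf3]
    have hp2 : ((List.range d).filter
        (fun k => decide (τ j = τ (a k) ∨ τ j = τ (b k)))).Pairwise (· < ·) :=
      List.Pairwise.filter _ List.pairwise_lt_range
    refine List.Perm.eq_of_pairwise (le := (· < ·)) ?_ (hinc j) hp2 ?_
    · intro x y _ _ h1 h2
      exact absurd h1 (lt_asymm h2)
    · refine (List.perm_ext_iff_of_nodup ((hinc j).imp (fun h => ne_of_lt h))
        (hp2.imp (fun h => ne_of_lt h))).2 (fun k => ?_)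
      rw [List.mem_filter, List.mem_range, decide_eq_true_iff]
      constructor
      · intro hk
        have hkd := hmem j k hk
        refine ⟨hkd, ?_⟩
        rcases ((hab k hkd).2 j).1 hk with h | h
        · left
          rw [h]
        · right
          rw [h]
      · rintro ⟨hkd, h | h⟩
        · exact ((hab k hkd).2 j).2 (Or.inl (τ.injective h))
        · exact ((hab k hkd).2 j).2 (Or.inr (τ.injective h))
  refine ⟨f ++ W, ?_, fun j => ?_, fun j => ?_⟩
  · rw [nd_append, hf1, hW0, Nat.add_zero]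
  · rw [hEVA.1, ev_nil_of_nd hEVA W hW0, List.append_nil, ← hev j, List.getElem?_ofFn,
      dif_pos j.2]
  · rw [hRUN.1, hf2, hW, Equiv.trans_apply, Equiv.trans_apply, Equiv.symm_apply_apply]

end Pool.Agent.H39.LNT
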